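import Pool.Agent.W6h19.KS.Fin

/-!
# Minimal balance constants of interval orders with few lengths: the order `log w / w`

An interval order is represented by closed intervals, `x < y` meaning that the interval of `x` is
entirely to the left of the interval of `y`.  `Lengths P k` means that at most `k` different lengths
are needed, `Nested P k` that there are no `k + 1` intervals each in the interior of the next one.
For every class `K` between these two classes (`2 ≤ k`, `Lengths P 2 → K P → Nested P k`) the infimum
`dK K w` of the balance constants of the posets of width `w` in `K` satisfies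

`1/2 - 3 k (1 + log w) / w ≤ dK K w ≤ 1/2 - log w / (20000 w)`,

so for fixed `k` the distance to `1/2` has the exact order `log w / w`, and `dK K w < dK K v` for all
`v ≥ 10 ^ 6 k (1 + log k) w`: in every interval of this (linear) size the minimal balance constant
grows strictly.  For semiorders the distance is between `1 / (8 w ^ 2)` and `3 (1 + log w) / w`.

For the lower bound, `k` levels of nesting split an antichain of size `w` into classes in which the
intervals are staggered, and in such a class the sum of the imbalances of consecutive elements is at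
most `2 (1 + log M)`, where `M` bounds the number of elements incomparable to a given one; if `M` is
at least `w ^ 2` there is a ladder of nearly balanced pairs.  For the upper bound, the posets of
`LogRate` (ordinal sums of half graphs and chains, and isolated elements) are represented by unit
intervals and intervals of one further length.
-/

set_option autoImplicit false

namespace Pool.Agent.Results.MP_c890a7_co.BoundedNesting

open Pool.Agent.H13R3.WB Pool.Agent.H931R3.Bal Pool.Agent.W6h19.KS

theorem result :
    (∀ (P : Type) [PartialOrder P] (k : ℕ), Lengths P k → Nested P k) ∧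
    (∀ (P : Type) [Fintype P] [PartialOrder P] (k w : ℕ), Nested P k → 1 ≤ w → HasWidth P w →
      1 / 2 - 3 * k * (1 + Real.log w) / w ≤ balance P) ∧
    (∀ (K : ∀ (P : Type) [PartialOrder P], Prop) (k : ℕ), 2 ≤ k →
      (∀ (P : Type) [Fintype P] [PartialOrder P], Lengths P 2 → K P) →
      (∀ (P : Type) [Fintype P] [PartialOrder P], K P → Nested P k) →
      (∀ w : ℕ, 1 ≤ w → 1 / 2 - 3 * k * (1 + Real.log w) / w ≤ dK K w ∧
        dK K w ≤ 1 / 2 - Real.log w / (20000 * (w : ℝ)) ∧
        dK K w ≤ 1 / 2 - 1 / (12 * (w : ℝ) - 8)) ∧
      (∀ w v : ℕ, 1 ≤ w → 10 ^ 6 * (k * (1 + Real.log k) * w) ≤ (v : ℝ) → dK K w < dK K v) ∧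
      (∀ w : ℕ, 1 ≤ w → ∃ u : ℕ, w ≤ u ∧ (u : ℝ) ≤ 10 ^ 6 * (k * (1 + Real.log k) * w) ∧
        dK K u < dK K (u + 1))) ∧
    (∀ (K : ∀ (P : Type) [PartialOrder P], Prop),
      (∀ (P : Type) [Fintype P] [PartialOrder P], Lengths P 1 → K P) →
      (∀ (P : Type) [Fintype P] [PartialOrder P], K P → Nested P 1) →
      (∀ w : ℕ, 1 ≤ w → 1 / 2 - 3 * (1 + Real.log w) / w ≤ dK K w ∧
        dK K w ≤ 1 / 2 - 1 / (8 * (w : ℝ) ^ 2)) ∧
      (∀ w v : ℕ, 1 ≤ w → 200 * ((w : ℝ) ^ 2 * (1 + Real.log w)) ≤ (v : ℝ) →
        dK K w < dK K v)) :=
  ⟨fun _ _ _ h => h.nested, fun P _ _ k w h hw1 hw => nested_balance P k h w hw1 hw,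
    fun _ _ hk hL hN => ⟨fun w hw => two_bounds hL hN w hw,
      fun w v hw hv => two_growth (by omega) hL hN w v hw hv,
      fun w hw => two_step (by omega) hL hN w hw⟩,
    fun _ hL hN => ⟨fun w hw => one_bounds hL hN w hw, fun w v hw hv => one_growth hL hN w v hw hv⟩⟩

end Pool.Agent.Results.MP_c890a7_co.BoundedNesting
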