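import Mathlib
import Pool.Agent.W5h81.RF.Upper

/-!
# Minimal balance constants of rooted forests by width

A rooted forest is a finite poset in which the elements below any given element form a chain.  For
`N ≥ 1` every rooted forest with an antichain of at least `2 ^ (700 N²)` elements has two incomparable
elements `x`, `y` with `|Pr[x < y] - 1/2| ≤ 2 ^ (-N)`.  So the infimum `dF w` of the balance constants
of the rooted forests of width `w` is at least `1/2 - 2 exp (- √(log w) / 32)`; it is at most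
`1/2 - 1 / (12 w - 8)`.  Hence `dF w < dF v` for all `v ≥ exp (32000 log² (w + 1))`, and between
`w` and `exp (32000 log² (w + 1))` there is a strict increase `dF u < dF (u + 1)`.

The proof: for `x`, `y` incomparable in a rooted forest, `Pr[x < y]` is the probability that one sum of
independent exponential random variables is smaller than another one, the rates being the numbers of
elements above the elements below `x` (or `y`) (`Pool.Agent.W5h81.RF.prob_eq`).  This probability is a
Fourier integral.  Among many leaves two have the same small rates and almost the same moments of the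
other rates, in each of three dyadic blocks and above them; or the sums of the inverses of the large
rates differ much, and then one goes up one branch in steps that change the probability by little.
-/

set_option autoImplicit false

namespace Pool.Agent.Results.MP_c890a7_co.ForestRate

open Pool.Agent.H13R3.WB Pool.Agent.H931R3.Bal

/-- A rooted forest: the elements below any given element form a chain. -/
def IsRootedForest (P : Type) [PartialOrder P] : Prop :=
  ∀ x a b : P, a ≤ x → b ≤ x → a ≤ b ∨ b ≤ a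

/-- The infimum of the balance constants of the finite rooted forests of width `w`. -/
noncomputable def dF (w : ℕ) : ℝ :=
  sInf {d : ℝ | ∃ (P : Type) (_ : Fintype P) (_ : PartialOrder P), IsRootedForest P ∧
    HasWidth P w ∧ balance P = d}

lemma balance_ge_of_antichain (P : Type) [Fintype P] [PartialOrder P] (hP : IsRootedForest P)
    (N : ℕ) (hN : 1 ≤ N) (S : Finset P) (hS : IsAntichain (· ≤ ·) (S : Set P))
    (hc : 2 ^ (700 * N ^ 2) ≤ S.card) : 1 / 2 - (1 / 2) ^ N ≤ balance P := by
  classical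
  obtain ⟨x, y, hxy, hyx, h⟩ := Pool.Agent.W5h81.RF.forest_balance hP N hN S
    (fun a ha b hb hab => by
      by_contra hne
      exact hS ha hb hne hab) hc
  have hadd := prob_add (P := P) (x := x) (y := y) (fun h => hxy h.le)
  rw [abs_le] at h
  refine le_trans (le_min ?_ ?_) (le_balance x y) <;> linarith [h.1, h.2]

lemma nonempty_of_width {P : Type} [PartialOrder P] {w : ℕ} (hw : 1 ≤ w) (h : HasWidth P w) :
    Nonempty P := by
  obtain ⟨⟨A, _, hAc⟩, _⟩ := h
  obtain ⟨x, _⟩ := Finset.card_pos.1 (show 0 < A.card by omega)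
  exact ⟨x⟩

lemma balance_ge_of_width (P : Type) [Fintype P] [PartialOrder P] (hP : IsRootedForest P)
    (w : ℕ) (hw1 : 1 ≤ w) (hw : HasWidth P w) :
    1 / 2 - 2 * Real.exp (-(Real.sqrt (Real.log w) / 32)) ≤ balance P := by
  have hne := nonempty_of_width hw1 hw
  obtain ⟨⟨S, hS, hSc⟩, -⟩ := hw
  have hw1R : (1 : ℝ) ≤ w := by exact_mod_cast hw1
  have hlog0 : 0 ≤ Real.log w := Real.log_nonneg hw1R
  obtain ⟨N, hN⟩ : ∃ N : ℕ, N = ⌊Real.sqrt (Real.log w / (700 * Real.log 2))⌋₊ := ⟨_, rfl⟩
  have hl2 : 0 < Real.log 2 := Real.log_pos (by norm_num)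
  have hs0 : 0 ≤ Real.sqrt (Real.log w / (700 * Real.log 2)) := Real.sqrt_nonneg _
  have hNle : (N : ℝ) ≤ Real.sqrt (Real.log w / (700 * Real.log 2)) := by
    rw [hN]; exact Nat.floor_le hs0
  have hNlt : Real.sqrt (Real.log w / (700 * Real.log 2)) < N + 1 := by
    rw [hN]; exact Nat.lt_floor_add_one _
  -- the comparison of the exponentials
  have hexp : ((1 : ℝ) / 2) ^ N ≤ 2 * Real.exp (-(Real.sqrt (Real.log w) / 32)) := by
    have e1 : ((1 : ℝ) / 2) ^ N = 2 * Real.exp (-(((N : ℝ) + 1) * Real.log 2)) := by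
      have h1 : Real.exp (-(((N : ℝ) + 1) * Real.log 2)) = ((1 : ℝ) / 2) ^ (N + 1) := by
        rw [show -(((N : ℝ) + 1) * Real.log 2) = ((N + 1 : ℕ) : ℝ) * (-Real.log 2) by
          push_cast; ring, Real.exp_nat_mul, Real.exp_neg, Real.exp_log (by norm_num), one_div]
      rw [h1, pow_succ]
      ring
    rw [e1]
    apply mul_le_mul_of_nonneg_left _ (by norm_num)
    apply Real.exp_le_exp.2
    apply neg_le_neg
    have h1 : Real.sqrt (Real.log w) / 32 ≤
        Real.sqrt (Real.log w / (700 * Real.log 2)) * Real.log 2 := by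
      have h2 : Real.sqrt (Real.log w / (700 * Real.log 2)) * Real.log 2 =
          Real.sqrt (Real.log w) * Real.sqrt (Real.log 2 / 700) := by
        rw [← Real.sqrt_mul hlog0]
        have h3 : Real.log 2 = Real.sqrt (Real.log 2 ^ 2) := (Real.sqrt_sq hl2.le).symm
        nth_rewrite 2 [h3]
        rw [← Real.sqrt_mul (by positivity)]
        congr 1
        field_simp
      rw [h2, div_eq_mul_inv]
      apply mul_le_mul_of_nonneg_left _ (Real.sqrt_nonneg _)
      apply Real.le_sqrt_of_sq_le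
      have := Real.log_two_gt_d9
      norm_num
      linarith
    exact h1.trans (mul_le_mul_of_nonneg_right hNlt.le hl2.le)
  rcases Nat.eq_zero_or_pos N with h0 | h0
  · rw [h0, pow_zero] at hexp
    have : 0 ≤ balance P := balance_nonneg
    linarith
  · have hcard : 2 ^ (700 * N ^ 2) ≤ S.card := by
      rw [hSc]
      have h1 : (N : ℝ) ^ 2 ≤ Real.log w / (700 * Real.log 2) := by
        have h2 := pow_le_pow_left₀ (by positivity) hNle 2
        rwa [Real.sq_sqrt (by positivity)] at h2
      rw [le_div_iff₀ (by positivity)] at h1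
      have h3 : ((2 : ℝ) ^ (700 * N ^ 2)) ≤ w := by
        rw [← Real.log_le_log_iff (by positivity) (by linarith), Real.log_pow]
        push_cast
        linarith
      exact_mod_cast h3
    have h2 := balance_ge_of_antichain P hP N h0 S hS hcard
    linarith

lemma dF_bddBelow (w : ℕ) (hw : 1 ≤ w) : BddBelow {d : ℝ | ∃ (P : Type) (_ : Fintype P)
    (_ : PartialOrder P), IsRootedForest P ∧ HasWidth P w ∧ balance P = d} := by
  refine ⟨0, ?_⟩
  rintro d ⟨Q, _, _, _, h4, rfl⟩
  have := nonempty_of_width hw h4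
  exact balance_nonneg

lemma dF_le (w : ℕ) (hw : 1 ≤ w) : dF w ≤ 1 / 2 - 1 / (12 * (w : ℝ) - 8) := by
  obtain ⟨P, i1, i2, h1, h2, h3⟩ := Pool.Agent.W5h81.RF.exists_forest w hw
  exact le_trans (csInf_le (dF_bddBelow w hw) ⟨P, i1, i2, h1, h2, rfl⟩) h3

lemma dF_ge (w : ℕ) (hw : 1 ≤ w) :
    1 / 2 - 2 * Real.exp (-(Real.sqrt (Real.log w) / 32)) ≤ dF w := by
  unfold dF
  apply le_csInf
  · obtain ⟨P, i1, i2, h1, h2, -⟩ := Pool.Agent.W5h81.RF.exists_forest w hw
    exact ⟨_, P, i1, i2, h1, h2, rfl⟩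
  · rintro d ⟨P, _, _, h1, h2, rfl⟩
    exact balance_ge_of_width P h1 w hw h2

lemma growth (w : ℕ) (hw : 1 ≤ w) (v : ℕ)
    (hv : Real.exp (32000 * Real.log (w + 1) ^ 2) ≤ v) : dF w < dF v := by
  have hw1 : (1 : ℝ) ≤ w := by exact_mod_cast hw
  have hl2 : (0.6931471803 : ℝ) < Real.log 2 := Real.log_two_gt_d9
  have hlw : Real.log 2 ≤ Real.log ((w : ℝ) + 1) := Real.log_le_log (by norm_num) (by linarith)
  have hv0 : (0 : ℝ) < v := lt_of_lt_of_le (Real.exp_pos _) hv
  have hv1 : 1 ≤ v := by exact_mod_cast hv0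
  have h1 := dF_le w hw
  have h2 := dF_ge v hv1
  have h3 : 32000 * Real.log ((w : ℝ) + 1) ^ 2 ≤ Real.log v := by
    rw [Real.le_log_iff_exp_le hv0]
    exact hv
  have h4 : (178.8 : ℝ) * Real.log ((w : ℝ) + 1) ≤ Real.sqrt (Real.log v) := by
    apply Real.le_sqrt_of_sq_le
    refine le_trans ?_ h3
    rw [mul_pow]
    apply mul_le_mul_of_nonneg_right _ (by positivity)
    norm_num
  have h5 : Real.log (24 * ((w : ℝ) + 1)) ≤ Real.sqrt (Real.log v) / 32 := by
    rw [Real.log_mul (by norm_num) (by linarith)]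
    have h6 : 41 * Real.log 24 ≤ 188 * Real.log 2 := by
      have h7 : ((24 : ℝ)) ^ 41 ≤ 2 ^ 188 := by norm_num
      have h8 := Real.log_le_log (by positivity) h7
      rw [Real.log_pow, Real.log_pow] at h8
      exact_mod_cast h8
    linarith
  have h6 : Real.exp (-(Real.sqrt (Real.log v) / 32)) ≤ 1 / (24 * ((w : ℝ) + 1)) := by
    rw [Real.exp_neg, ← one_div]
    apply one_div_le_one_div_of_le (by linarith)
    rw [← Real.log_le_iff_le_exp (by linarith)]
    exact h5
  have h7 : 2 * (1 / (24 * ((w : ℝ) + 1))) < 1 / (12 * (w : ℝ) - 8) := by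
    have e : 2 * (1 / (24 * ((w : ℝ) + 1))) = 1 / (12 * (w : ℝ) + 12) := by
      field_simp
      ring
    rw [e]
    apply one_div_lt_one_div_of_lt
    · linarith
    · linarith
  linarith

lemma strict_step (w : ℕ) (hw : 1 ≤ w) : ∃ u : ℕ, w ≤ u ∧
    (u : ℝ) ≤ Real.exp (32000 * Real.log (w + 1) ^ 2) ∧ dF u < dF (u + 1) := by
  obtain ⟨v, hv⟩ : ∃ v : ℕ, v = ⌈Real.exp (32000 * Real.log ((w : ℝ) + 1) ^ 2)⌉₊ := ⟨_, rfl⟩
  have hw1 : (1 : ℝ) ≤ w := by exact_mod_cast hw
  have hle : Real.exp (32000 * Real.log ((w : ℝ) + 1) ^ 2) ≤ v := by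
    rw [hv]; exact Nat.le_ceil _
  have hlt : (v : ℝ) < Real.exp (32000 * Real.log ((w : ℝ) + 1) ^ 2) + 1 := by
    rw [hv]; exact Nat.ceil_lt_add_one (Real.exp_pos _).le
  have hg := growth w hw v hle
  have hwv : w ≤ v := by
    by_contra h
    rw [not_le] at h
    have hl2 : (0.6931471803 : ℝ) < Real.log 2 := Real.log_two_gt_d9
    have hlw : Real.log 2 ≤ Real.log ((w : ℝ) + 1) := Real.log_le_log (by norm_num) (by linarith)
    have h1 : Real.log ((w : ℝ) + 1) ≤ 32000 * Real.log ((w : ℝ) + 1) ^ 2 := by nlinarith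
    have h2 : (w : ℝ) + 1 ≤ Real.exp (32000 * Real.log ((w : ℝ) + 1) ^ 2) := by
      rw [← Real.log_le_iff_le_exp (by linarith)]
      exact h1
    have h3 : (v : ℝ) < w := by exact_mod_cast h
    linarith
  by_contra hcon
  push Not at hcon
  have key : ∀ k : ℕ, w ≤ k → k ≤ v → dF k ≤ dF w := by
    intro k hk
    induction k, hk using Nat.le_induction with
    | base => intro _; exact le_rfl
    | succ k hk ih =>
      intro hkv
      have h1 := ih (by omega)
      have h2 : ((k + 1 : ℕ) : ℝ) ≤ v := by exact_mod_cast hkv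
      push_cast at h2
      have h3 := hcon k hk (by linarith)
      linarith
  have := key v hwv le_rfl
  linarith

/-- **Main theorem.** -/
theorem result :
    (∀ (P : Type) [Fintype P] [PartialOrder P], IsRootedForest P → ∀ N : ℕ, 1 ≤ N →
      ∀ S : Finset P, IsAntichain (· ≤ ·) (S : Set P) → 2 ^ (700 * N ^ 2) ≤ S.card →
        ∃ x y : P, ¬ x ≤ y ∧ ¬ y ≤ x ∧ |prob P x y - 1 / 2| ≤ (1 / 2) ^ N) ∧
    (∀ w : ℕ, 1 ≤ w → 1 / 2 - 2 * Real.exp (-(Real.sqrt (Real.log w) / 32)) ≤ dF w ∧
      dF w ≤ 1 / 2 - 1 / (12 * (w : ℝ) - 8)) ∧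
    (∀ w v : ℕ, 1 ≤ w → Real.exp (32000 * Real.log (w + 1) ^ 2) ≤ v → dF w < dF v) ∧
    (∀ w : ℕ, 1 ≤ w → ∃ u : ℕ, w ≤ u ∧ (u : ℝ) ≤ Real.exp (32000 * Real.log (w + 1) ^ 2) ∧
      dF u < dF (u + 1)) := by
  classical
  refine ⟨?_, fun w hw => ⟨dF_ge w hw, dF_le w hw⟩, fun w v hw hv => growth w hw v hv,
    strict_step⟩
  intro P _ _ hP N hN S hS hc
  exact Pool.Agent.W5h81.RF.forest_balance hP N hN S
    (fun a ha b hb hab => by
      by_contra hne
      exact hS ha hb hne hab) hc

end Pool.Agent.Results.MP_c890a7_co.ForestRate
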