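import Mathlib
import Pool.Agent.W5h8.SPN

/-!
# Balance constants of series-parallel posets below `19/45`, and a plateau

In the class of series-parallel posets the minimal balance constant does not grow strictly with
the width: it is `178/429` at width four and `19/45` at the widths five and six.  The file also
lists, for every width, all the balance constants below `19/45` of series-parallel posets.
`dSP w` is the infimum of the balance constants of the series-parallel posets of width `w`, and
`BSP w` is the set of these constants.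
-/

namespace Pool.Agent.Results.MP_c890a7_co.SeriesParallelPlateau

open Pool.Agent.H13R3.WB Pool.Agent.H931R3.Bal Pool.Agent.W5h8.SP

theorem result :
    dSP 4 = 178 / 429 ∧ dSP 5 = 19 / 45 ∧ dSP 6 = 19 / 45 ∧ (∀ w : ℕ, 5 ≤ w → 19 / 45 ≤ dSP w) ∧
    (¬ ∀ w : ℕ, 2 ≤ w → dSP w < dSP (w + 1)) ∧
    IsLeast (BSP 4) (178 / 429) ∧ IsLeast (BSP 5) (19 / 45) ∧ IsLeast (BSP 6) (19 / 45) ∧
    BSP 2 ∩ Set.Iio (19 / 45) = {1 / 3, 2 / 5, 5 / 12} ∧
    BSP 3 ∩ Set.Iio (19 / 45) =
      {8 / 21, 2 / 5, 11 / 27, 9 / 22, 107 / 260, 26 / 63, 5 / 12, 287 / 680} ∧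
    BSP 4 ∩ Set.Iio (19 / 45) = {178 / 429, 5 / 12, 263 / 630, 287 / 680} ∧
    ∀ w : ℕ, 5 ≤ w → BSP w ∩ Set.Iio (19 / 45) = ∅ := by
  refine ⟨dSP_four, dSP_five, dSP_six, fun w hw => dSP_big hw, ?_, least_four, least_five,
    least_six, small_two, small_three, small_four, fun w hw => small_big hw⟩
  intro h
  have := h 5 (by norm_num)
  rw [show 5 + 1 = 6 from rfl, dSP_five, dSP_six] at this
  exact lt_irrefl _ this

end Pool.Agent.Results.MP_c890a7_co.SeriesParallelPlateau
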