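import Pool.Agent.W5h1.KS.Final
import Pool.Agent.W5h1.KS.Pig

/-!
# The rate `log log w / log w` for the minimal balance constants of posets of width `w`

With `δ_w` the infimum of the balance constants of the finite posets of width `w`, exactly as in the
problem: there is a constant `C` with `δ_w ≥ 1/2 - ε` as soon as `w ≥ exp (C log (2/ε) / ε)`, that
is, `1/2 - δ_w ≤ C log log w / log w`. Hence `δ_w < δ_v` for all `v ≥ exp (C w)`, and there is a
strict increase `δ_u < δ_{u+1}` with `w ≤ u ≤ exp (C w)`, for every `w ≥ 1`.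

The new ingredient is an inequality of Hilbert type for arbitrary tournaments: if `N` complex vectors
`z_i` of squared norm at most `L`, in any dimension, have `|Im ⟨z_i, z_j⟩| ≥ 1` for all `i ≠ j`, then
`N ≤ exp (π L)`. For the proof let `K = (⟨z_i, z_j⟩)` and `0 ≤ t ≤ 1`. By the Schur product theorem the
entrywise exponential of `π (1 + t) / 2 K + π (1 - t) / 2 conj K` is positive semidefinite, and so is
its difference to the matrix of ones; so `N ^ 2 ≤ ∑ exp (π x) cos (π t y)`, the sum over the entries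
`x + i y` of `K`. Integrate against `sin (π t)`, `0 ≤ t ≤ 1`. The integral of `sin (π t) cos (π t y)` is
`(1 + cos (π y)) / (π (1 - y ^ 2))`, which is not positive for `|y| ≥ 1`, so only the diagonal remains:
`N ^ 2 ≤ N exp (π L)`.

Consequence: among `N ≥ 2` random variables with values in `{0, …, 2 ^ J - 1}`, with any joint law,
there are two with `|P (X < Y) - P (Y < X)| ≤ π J / log N` (give a number with `J` binary digits the vector
of the nodes above it in the binary tree, with entries `1` and `i`). The bound with the square of the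
difference is the theorem `Pool.Agent.W5h98.KSR.info`. The rest is the proof of the Kahn-Saks conjecture
with a rate of the starting files (`WidthRate`), in the form of `Pool.Agent.W5h98.KSR`.
-/

set_option autoImplicit false

namespace Pool.Agent.Results.MP_c890a7_co.TournamentRate

theorem result :
    -- the minimal balance constants
    (∃ C : ℝ, 0 < C ∧
      ∀ δ : ℕ → ℝ,
        (∀ w : ℕ, δ w = sInf {d : ℝ | ∃ (n : ℕ) (r : Fin n → Fin n → Prop),
            (∀ a, r a a) ∧ (∀ a b c, r a b → r b c → r a c) ∧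
            (∀ a b, r a b → r b a → a = b) ∧
            (∃ s : Finset (Fin n), s.card = w ∧ ∀ a ∈ s, ∀ b ∈ s, a ≠ b → ¬ r a b) ∧
            (∀ s : Finset (Fin n), (∀ a ∈ s, ∀ b ∈ s, a ≠ b → ¬ r a b) → s.card ≤ w) ∧
            d = sSup {t : ℝ | ∃ x y : Fin n, ¬ r x y ∧ ¬ r y x ∧
              t = min
                ((Nat.card {σ : Equiv.Perm (Fin n) //
                    (∀ a b, r a b → σ a ≤ σ b) ∧ σ x < σ y} : ℝ) /
                  (Nat.card {σ : Equiv.Perm (Fin n) // ∀ a b, r a b → σ a ≤ σ b} : ℝ))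
                ((Nat.card {σ : Equiv.Perm (Fin n) //
                    (∀ a b, r a b → σ a ≤ σ b) ∧ σ y < σ x} : ℝ) /
                  (Nat.card {σ : Equiv.Perm (Fin n) // ∀ a b, r a b → σ a ≤ σ b} : ℝ))}}) →
        (∀ (ε : ℝ) (w : ℕ), 0 < ε → ε ≤ 1 / 2 →
          Real.exp (C * Real.log (2 / ε) / ε) ≤ w → 1 / 2 - ε ≤ δ w) ∧
        (∀ w : ℕ, 16 ≤ w → 1 / 2 - C * (Real.log (Real.log w) / Real.log w) ≤ δ w) ∧
        (∀ w v : ℕ, 1 ≤ w → Real.exp (C * w) ≤ v → δ w < δ v) ∧
        (∀ w : ℕ, 1 ≤ w → ∃ u : ℕ, w ≤ u ∧ (u : ℝ) ≤ Real.exp (C * w) ∧ δ u < δ (u + 1))) ∧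
    -- random variables
    (∀ (Ω : Type) [Fintype Ω] [Nonempty Ω] (N J : ℕ) (X : Fin N → Ω → ℕ), 2 ≤ N →
      (∀ i ω, X i ω < 2 ^ J) → ∃ i j, i ≠ j ∧
        Real.log N * |(({ω | X i ω < X j ω} : Set Ω).ncard : ℝ) -
          (({ω | X j ω < X i ω} : Set Ω).ncard : ℝ)| ≤ Real.pi * J * Fintype.card Ω) ∧
    -- vectors
    (∀ (N m : ℕ) (z : Fin N → Fin m → ℂ) (L : ℝ), (∀ i, ∑ k, ‖z i k‖ ^ 2 ≤ L) →
      (∀ i j, i ≠ j → 1 ≤ |(∑ k, (starRingEnd ℂ) (z i k) * z j k).im|) →
      (N : ℝ) ≤ Real.exp (Real.pi * L)) :=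
  ⟨Pool.Agent.W5h1.KS.main, fun Ω _ _ N J X hN hX => Pool.Agent.W5h1.KS.pigeon Ω N J X hN hX,
    Pool.Agent.W5h1.KS.vectors⟩

end Pool.Agent.Results.MP_c890a7_co.TournamentRate
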